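import Pool.Agent.Q7.CF.Stm
import Pool.Agent.Q7.CJ.Main

/-!
# The union bound (job CF-UNI, helper275)
-/

set_option autoImplicit false

namespace Pool.Agent.Q275.CF.UNI

open NumberField IsDedekindDomain Filter Topology Finset
open Pool.Agent.Q283.LQ (Sm Box Nest nS)
open Pool.Agent.Q7.LK
open Pool.Agent.Q7.CE (S_ESUM)
open Pool.Agent.Q7.CF

theorem nest_true : ∀ k : ℕ, Nest k fun _ => True
  | 0 => trivial
  | k + 1 => nest_mono k (fun _ => True) _ (fun _ _ => Eventually.of_forall fun _ => trivial)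
      (nest_true k)

theorem nest_and : ∀ (k : ℕ) (P Q : (Fin k → ℕ) → Prop), Nest k P → Nest k Q →
    Nest k fun X => P X ∧ Q X
  | 0, _, _, h1, h2 => ⟨h1, h2⟩
  | k + 1, P, Q, h1, h2 => by
      refine nest_mono k _ _ (fun X hX => ?_) (nest_and k _ _ h1 h2)
      filter_upwards [hX.1, hX.2] with x hx1 hx2
      exact ⟨hx1, hx2⟩

theorem nest_all (k : ℕ) (s : Finset ℕ) (P : ℕ → (Fin k → ℕ) → Prop)
    (h : ∀ r ∈ s, Nest k (P r)) : Nest k fun X => ∀ r ∈ s, P r X := by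
  classical
  induction s using Finset.induction_on with
  | empty =>
    exact nest_mono k _ _ (fun X _ r hr => absurd hr (Finset.notMem_empty r)) (nest_true k)
  | insert a s ha ih =>
    have h1 := ih fun r hr => h r (Finset.mem_insert_of_mem hr)
    have h2 := h a (Finset.mem_insert_self a s)
    refine nest_mono k _ _ (fun X hX r hr => ?_) (nest_and k _ _ h1 h2)
    rcases Finset.mem_insert.1 hr with h3 | h3
    · rw [h3]
      exact hX.2
    · exact hX.1 r h3

theorem ncard_bUnion_le {α : Type} (s : Finset ℕ) (B : ℕ → Set α) :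
    (⋃ r ∈ s, B r).ncard ≤ ∑ r ∈ s, (B r).ncard := by
  classical
  induction s using Finset.induction_on with
  | empty => simp
  | insert a s ha ih =>
    rw [Finset.set_biUnion_insert, Finset.sum_insert ha]
    exact (Set.ncard_union_le _ _).trans (by omega)

section inv

variable (p : ℕ) [hp : Fact p.Prime]

/-- the inverse modulo `p` -/
noncomputable def iv (r : ℕ) : ℕ := ((r : ZMod p)⁻¹).val

theorem iv_cast (r : ℕ) : ((iv p r : ℕ) : ZMod p) = (r : ZMod p)⁻¹ := by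
  unfold iv
  rw [ZMod.natCast_val, ZMod.cast_id]

theorem cast_ne {r : ℕ} (h1 : 1 ≤ r) (h2 : r < p) : (r : ZMod p) ≠ 0 := by
  rw [Ne, ZMod.natCast_eq_zero_iff]
  exact Nat.not_dvd_of_pos_of_lt h1 h2

theorem mul_iv {r : ℕ} (h1 : 1 ≤ r) (h2 : r < p) : r * iv p r ≡ 1 [MOD p] := by
  rw [← ZMod.natCast_eq_natCast_iff, Nat.cast_mul, iv_cast, mul_inv_cancel₀ (cast_ne p h1 h2),
    Nat.cast_one]

theorem iv_iv {r : ℕ} (h2 : r < p) : iv p (iv p r) = r := by
  have h3 : ((iv p (iv p r) : ℕ) : ZMod p) = r := by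
    rw [iv_cast, iv_cast, inv_inv]
  have h4 : iv p (iv p r) < p := ZMod.val_lt _
  rw [ZMod.natCast_eq_natCast_iff] at h3
  exact Nat.ModEq.eq_of_lt_of_lt h3 h4 h2

theorem iv_mem {r : ℕ} (hr : r ∈ Icc 1 (p - 2)) : iv p r ∈ Icc 1 (p - 2) := by
  have hp2 := hp.out.two_le
  rw [Finset.mem_Icc] at hr ⊢
  have hrp : r < p := by omega
  have h0 := cast_ne p hr.1 hrp
  have h1 : iv p r < p := ZMod.val_lt _
  have h2 : iv p r ≠ 0 := by
    intro h
    have h3 := iv_cast p r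
    rw [h, Nat.cast_zero] at h3
    exact inv_ne_zero h0 h3.symm
  have h3 : iv p r ≠ p - 1 := by
    intro h
    have h4 := iv_iv p hrp
    have h5 : ((iv p (iv p r) : ℕ) : ZMod p) = -1 := by
      rw [iv_cast, h, Nat.cast_sub (by omega)]
      simp
    rw [h4] at h5
    have h6 : ((r + 1 : ℕ) : ZMod p) = 0 := by
      rw [Nat.cast_add, h5, Nat.cast_one]
      ring
    rw [ZMod.natCast_eq_zero_iff] at h6
    have := Nat.le_of_dvd (by omega) h6
    omega
  omega

/-- representatives of the pairs -/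
noncomputable def Rp : Finset ℕ := (Icc 1 (p - 2)).filter fun r => r ≤ iv p r

theorem one_mem (h3 : 3 ≤ p) : 1 ∈ Rp p := by
  unfold Rp
  rw [Finset.mem_filter, Finset.mem_Icc]
  have h1 := iv_mem p (r := 1) (by rw [Finset.mem_Icc]; omega)
  rw [Finset.mem_Icc] at h1
  exact ⟨by omega, h1.1⟩

theorem fix {r : ℕ} (hr : r ∈ Icc 1 (p - 2)) (h : iv p r = r) : r = 1 := by
  have hp2 := hp.out.two_le
  rw [Finset.mem_Icc] at hr
  have hrp : r < p := by omega
  have h1 := mul_iv p hr.1 hrp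
  rw [h, ← ZMod.natCast_eq_natCast_iff, Nat.cast_mul, Nat.cast_one] at h1
  rcases mul_self_eq_one_iff.1 h1 with h2 | h2
  · have h3 : ((r : ℕ) : ZMod p) = ((1 : ℕ) : ZMod p) := by rw [h2, Nat.cast_one]
    rw [ZMod.natCast_eq_natCast_iff] at h3
    exact Nat.ModEq.eq_of_lt_of_lt h3 hrp (by omega)
  · have h6 : ((r + 1 : ℕ) : ZMod p) = 0 := by
      rw [Nat.cast_add, h2, Nat.cast_one]
      ring
    rw [ZMod.natCast_eq_zero_iff] at h6
    have := Nat.le_of_dvd (by omega) h6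
    omega

theorem card_Rp (h3 : 3 ≤ p) : 2 * (Rp p).card ≤ p - 1 := by
  classical
  obtain ⟨R', hR'⟩ : ∃ R' : Finset ℕ, R' = (Icc 1 (p - 2)).filter fun r => iv p r ≤ r := ⟨_, rfl⟩
  have h1 : (Rp p).card ≤ R'.card := by
    refine Finset.card_le_card_of_injOn (iv p) ?_ ?_
    · intro r hr
      have hr' := Finset.mem_filter.1 (Finset.mem_coe.1 hr)
      rw [Finset.mem_coe, hR', Finset.mem_filter]
      refine ⟨iv_mem p hr'.1, ?_⟩
      have h4 := Finset.mem_Icc.1 hr'.1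
      rw [iv_iv p (by omega)]
      exact hr'.2
    · intro r hr s hs h
      have hr' := Finset.mem_Icc.1 (Finset.mem_filter.1 (Finset.mem_coe.1 hr)).1
      have hs' := Finset.mem_Icc.1 (Finset.mem_filter.1 (Finset.mem_coe.1 hs)).1
      rw [← iv_iv p (r := r) (by omega), ← iv_iv p (r := s) (by omega), h]
  have h2 := Finset.card_union_add_card_inter (Rp p) R'
  have h4 : (Rp p ∪ R').card ≤ p - 2 := by
    calc (Rp p ∪ R').card ≤ (Icc 1 (p - 2)).card := by
          refine Finset.card_le_card (Finset.union_subset (Finset.filter_subset _ _) ?_)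
          rw [hR']
          exact Finset.filter_subset _ _
      _ = p - 2 := by rw [Nat.card_Icc]; omega
  have h5 : (Rp p ∩ R').card ≤ 1 := by
    refine (Finset.card_le_card (t := {1}) ?_).trans (by simp)
    intro r hr
    rw [Finset.mem_inter] at hr
    have h6 := Finset.mem_filter.1 hr.1
    have h7 := hr.2
    rw [hR'] at h7
    have h8 := (Finset.mem_filter.1 h7).2
    rw [Finset.mem_singleton]
    exact fix p h6.1 (le_antisymm h8 h6.2)
  omega

end inv

theorem bad_sym (hsym : S_SYM) (p : ℕ) [hp : Fact p.Prime] (F : Type) [Field F] [NumberField F]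
    {r r' : ℕ} (h1 : Ok p r) (h2 : Ok p r') (h : r * r' ≡ 1 [MOD p]) {D : F} (hD : D ≠ 0)
    (hB : Bad p (AF (F := F) p r) D) : Bad p (AF (F := F) p r') D := by
  obtain ⟨a, ha, ha2⟩ := hB
  refine ⟨a, ⟨ha.ne, ha.unr, ha.ram, fun v hv => ?_⟩, ha2⟩
  have h3 := ha.abv v hv
  have : CharZero (v.adicCompletion F) :=
    charZero_of_injective_algebraMap (algebraMap F (v.adicCompletion F)).injective
  refine hsym p r r' h (v.adicCompletion F) _ _ ?_ h3
  intro h0
  exact hD ((algebraMap F (v.adicCompletion F)).injective (by rw [map_zero]; exact h0))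

theorem uni (hshare : S_SHARE) (hsum : S_ESUM) (hloc : S_FLOC) (hsym : S_SYM) : S_UNI := by
  classical
  intro p hp hp2 F _ _ ζ hζ
  have h3p : 3 ≤ p := by
    have := hp.out.two_le
    omega
  obtain ⟨y0, hy0⟩ := hshare p hp2 F ζ hζ
  refine ⟨y0, fun y hy D0 hD0 ε hε => ?_⟩
  have hp1 : (0 : ℝ) < (p : ℝ) - 1 := by
    have : (1 : ℝ) < p := by exact_mod_cast hp.out.one_lt
    linarith
  have hok : ∀ r ∈ Rp p, Ok p r := by
    intro r hr
    have h1 := Finset.mem_Icc.1 (Finset.mem_filter.1 hr).1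
    exact ⟨h1.1, by omega⟩
  have hex : ∀ r : ℕ, ∃ k0 : ℕ, r ∈ Rp p → ∀ k, k0 ≤ k → ∀ z : Fin k → ZMod p, (∀ i, z i ≠ 0) →
      Nest k fun X =>
        (Box y X : Set (Fin k → HeightOneSpectrum (𝓞 F))).Finite ∧
        0 < ({q ∈ (Box y X : Set (Fin k → HeightOneSpectrum (𝓞 F))) |
          ∃ D, Fits p y D0 z q D}.ncard : ℝ) ∧
        ({q ∈ (Box y X : Set (Fin k → HeightOneSpectrum (𝓞 F))) |
          ∃ D, Fits p y D0 z q D ∧ Bad p (AF (F := F) p r) D}.ncard : ℝ) ≤
          ((p : ℝ) ^ (∑ᶠ v : HeightOneSpectrum (𝓞 F), dv p v / 2) *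
            (1 / (p : ℝ)) ^ InfinitePlace.nrComplexPlaces F / (p - 1) + 2 * ε / (p - 1)) *
          ({q ∈ (Box y X : Set (Fin k → HeightOneSpectrum (𝓞 F))) |
            ∃ D, Fits p y D0 z q D}.ncard : ℝ) := by
    intro r
    by_cases hr : r ∈ Rp p
    · have := hok r hr
      obtain ⟨k0, hk0⟩ := hy0 y hy (AF (F := F) p r) (fun v => dv p v / 2) (hloc p r F ζ hζ) D0 hD0
        (2 * ε / (p - 1)) (by positivity)
      exact ⟨k0, fun _ => hk0⟩
    · exact ⟨0, fun h => absurd h hr⟩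
  choose f hf using hex
  refine ⟨(Rp p).sup f, fun k hk z hz => ?_⟩
  have hall := nest_all k (Rp p) _ fun r hr => hf r hr k ((Finset.le_sup hr).trans hk) z hz
  refine nest_mono k _ _ (fun X hX => ?_) hall
  obtain ⟨hfin, hpos, -⟩ := hX 1 (one_mem p h3p)
  refine ⟨hfin, hpos, ?_⟩
  set T : Set (Fin k → HeightOneSpectrum (𝓞 F)) :=
    {q ∈ (Box y X : Set (Fin k → HeightOneSpectrum (𝓞 F))) | ∃ D, Fits p y D0 z q D} with hT
  set G : Set (Fin k → HeightOneSpectrum (𝓞 F)) :=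
    {q ∈ (Box y X : Set (Fin k → HeightOneSpectrum (𝓞 F))) | (∃ D, Fits p y D0 z q D) ∧
      ∀ D, Fits p y D0 z q D → ∀ r : ℕ, Ok p r → ¬ Bad p (AF (F := F) p r) D} with hG
  set B : ℕ → Set (Fin k → HeightOneSpectrum (𝓞 F)) := fun r =>
    {q ∈ (Box y X : Set (Fin k → HeightOneSpectrum (𝓞 F))) | ∃ D, Fits p y D0 z q D ∧
      Bad p (AF (F := F) p r) D} with hB
  have hcov : T ⊆ G ∪ ⋃ r ∈ Rp p, B r := by
    intro q hq
    by_cases hg : q ∈ G
    · exact Or.inl hg
    · right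
      rw [hG] at hg
      simp only [Set.mem_ofPred_eq, not_and, not_forall, not_not] at hg
      obtain ⟨D, hD, r, hr, hbad⟩ := hg hq.1 hq.2
      have hrI : r ∈ Icc 1 (p - 2) := by
        rw [Finset.mem_Icc]
        have h1 := hr.h1
        have h2 := hr.h2
        omega
      have hrI' := Finset.mem_Icc.1 hrI
      rw [Set.mem_iUnion₂]
      by_cases hle : r ≤ iv p r
      · exact ⟨r, Finset.mem_filter.2 ⟨hrI, hle⟩, hq.1, D, hD, hbad⟩
      · have h4 := iv_mem p hrI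
        have h4' := Finset.mem_Icc.1 h4
        have hok' : Ok p (iv p r) := ⟨h4'.1, by omega⟩
        refine ⟨iv p r, Finset.mem_filter.2 ⟨h4, ?_⟩, hq.1, D, hD, ?_⟩
        · rw [iv_iv p (by omega)]
          omega
        · exact bad_sym hsym p F hr hok' (mul_iv p hrI'.1 (by omega)) hD.ne hbad
  have hTf : T.Finite := hfin.subset fun q hq => hq.1
  have hGf : G.Finite := hfin.subset fun q hq => hq.1
  have hUf : (⋃ r ∈ Rp p, B r).Finite := by
    refine hfin.subset fun q hq => ?_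
    rw [Set.mem_iUnion₂] at hq
    obtain ⟨r, _, hq⟩ := hq
    exact hq.1
  have h2 : (T.ncard : ℝ) ≤ G.ncard + ∑ r ∈ Rp p, ((B r).ncard : ℝ) := by
    have h5 := Set.ncard_le_ncard hcov (hGf.union hUf)
    have h6 := Set.ncard_union_le G (⋃ r ∈ Rp p, B r)
    have h7 := ncard_bUnion_le (Rp p) B
    have h8 : T.ncard ≤ G.ncard + ∑ r ∈ Rp p, (B r).ncard := by omega
    exact_mod_cast h8
  have h3 : ∀ r ∈ Rp p, ((B r).ncard : ℝ) ≤ (1 / ((p : ℝ) - 1) + 2 * ε / (p - 1)) * T.ncard := by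
    intro r hr
    obtain ⟨-, -, hN⟩ := hX r hr
    refine le_trans hN (mul_le_mul_of_nonneg_right ?_ (by positivity))
    have h4 := Pool.Agent.Q7.CJ.mu_le hsum p hp2 F ζ hζ
    have h5 := div_le_div_of_nonneg_right h4 hp1.le
    linarith
  have h9 := Finset.sum_le_sum h3
  rw [Finset.sum_const, nsmul_eq_mul] at h9
  have h10 : ((Rp p).card : ℝ) ≤ ((p : ℝ) - 1) / 2 := by
    have h11 := card_Rp p h3p
    have h12 : 2 * ((Rp p).card : ℝ) ≤ (p : ℝ) - 1 := by
      have h13 : 2 * (Rp p).card + 1 ≤ p := by omega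
      have h14 : (2 * ((Rp p).card : ℝ) + 1) ≤ p := by exact_mod_cast h13
      linarith
    linarith
  have hc0 : 0 ≤ (1 / ((p : ℝ) - 1) + 2 * ε / (p - 1)) * (T.ncard : ℝ) := by positivity
  have h15 := mul_le_mul_of_nonneg_right h10 hc0
  have h16 : ((p : ℝ) - 1) / 2 * ((1 / ((p : ℝ) - 1) + 2 * ε / (p - 1)) * (T.ncard : ℝ)) =
      (1 / 2 + ε) * T.ncard := by
    field_simp
  linarith

end Pool.Agent.Q275.CF.UNI
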